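import Pool.Agent.Q205.WV.Stm

/-!
Project WV (MP_28b024_mp), job GAPC: the gap for all laws with enough variance.
-/

set_option autoImplicit false

namespace Pool.Agent.Q211.WV.GAPC

open MeasureTheory Filter Pool.Agent.W792.LL Pool.Agent.W792.WA
open scoped Topology

theorem main : S_LEV0 → S_ATM → S_CX → S_UUC → S_PSI → S_FIX → S_GAPC := by
  intro hLEV hATM hCX hUUC hPSI hFIX p κ D ε hp1 hp2 hκ hκ1 hε
  obtain ⟨ψ, R, η, q, hψ, hR, hη, hη1, hq0, hq1, hηq, hint, hU⟩ :=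
    hLEV p κ D ε hp1 hp2 hκ hκ1 hε
  refine ⟨ψ, R, η, hψ, hR, hη, hint, ?_⟩
  intro ν _ d K z ρ' _ hκν hρ' hKz hz s hs
  have hvr : 0 < vr ν := lt_of_lt_of_le hκ hκν
  obtain ⟨hP, hsupp, -⟩ := hATM ψ R 1 ρ' hψ hR
  have hρ := hsupp hρ'
  have hwc : Continuous (Function.uncurry (wz K z)) := hCX.2.2.2 d K z hz.le
  have hn : ∀ k, ‖(K k : ℂ) - z‖ ≤ D := by
    intro k
    have h1 : ‖((K k : ℝ) : ℂ)‖ ≤ ‖K‖ := by
      rw [Complex.norm_real]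
      exact K.norm_coe_le_norm k
    exact (norm_sub_le _ _).trans (by linarith)
  have him : ∀ k, ((K k : ℂ) - z).im = -z.im := by
    intro k
    simp
  obtain ⟨qz, hqz0, hqz1, hqz⟩ := hCX.2.2.1 (1 + R) D z.im hz
  have hwq : ∀ k, ∀ a ∈ Set.Icc (-(1 + R)) (1 + R), ‖wz K z k a‖ ≤ qz := by
    intro k a ha
    exact hqz _ a (hn k) (le_of_eq (him k)) (abs_le.2 ⟨ha.1, ha.2⟩)
  have hw1 : ∀ k, ∀ a ∈ Set.Icc (-(1 + R)) (1 + R), ‖wz K z k a‖ ≤ 1 := by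
    intro k a ha
    exact (hwq k a ha).trans hqz1.le
  have hfix := hFIX ν d ((lev ψ R).conv ρ') (1 + R) qz (wz K z) hvr hρ hwc hqz0 hqz1 hwq
  have hq2 : q ^ 2 ≤ 1 := by nlinarith
  refine hfix.2.2 {s | ‖s‖ ≤ 1 - η} (isClosed_le continuous_norm continuous_const)
    ⟨0, ?_⟩ ?_ ?_ s hs
  · show ‖(0 : C(UnitAddTorus (Fin d), ℂ))‖ ≤ 1 - η
    rw [norm_zero]
    linarith
  · intro s' hs'
    have h1 : ‖s'‖ ≤ 1 - η := hs'
    linarith
  · intro s' hs'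
    have h1 : ‖s'‖ ≤ 1 - η := hs'
    have h2 := (hUUC d ((lev ψ R).conv ρ') (1 + R) 1 (wz K z) s' hρ hwc zero_le_one le_rfl hw1
      (by linarith) (by linarith)).1
    have h3 : ‖UU ((lev ψ R).conv ρ') (wz K z) s'‖ ≤ q := by
      refine (ContinuousMap.norm_le _ hq0).2 fun k => ?_
      rw [h2 k]
      refine hU ρ' hρ' ((K k : ℂ) - z) (s' k) (hn k) ?_ ((s'.norm_coe_le_norm k).trans h1)
      rw [him k]
      linarith
    have h4 := (hPSI ν d q _ _ hq0 hq1 h3 h3).1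
    show ‖psi ν (UU ((lev ψ R).conv ρ') (wz K z) s')‖ ≤ 1 - η
    have ht0 : 0 ≤ (1 - q ^ 2) * κ / 8 := by
      have : 0 ≤ 1 - q ^ 2 := by linarith
      positivity
    have ht1 : (1 - q ^ 2) * κ / 8 ≤ 1 := by
      have h5 : (1 - q ^ 2) * κ ≤ 1 * 1 :=
        mul_le_mul (by nlinarith) hκ1 hκ.le (by norm_num)
      linarith
    refine (ContinuousMap.norm_le _ (by linarith)).2 fun k => ?_
    obtain ⟨-, -, -, -, -, h6⟩ := h4 k
    have h7 : (1 - q ^ 2) * κ ≤ (1 - q ^ 2) * vr ν :=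
      mul_le_mul_of_nonneg_left hκν (by linarith)
    have h8 : ‖psi ν (UU ((lev ψ R).conv ρ') (wz K z) s') k‖ ^ 2 ≤
        (1 - (1 - q ^ 2) * κ / 8) ^ 2 := by
      nlinarith [sq_nonneg ((1 - q ^ 2) * κ / 8)]
    have h9 := abs_le_of_sq_le_sq h8 (by linarith)
    rw [abs_of_nonneg (norm_nonneg _)] at h9
    linarith

end Pool.Agent.Q211.WV.GAPC
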