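import Pool.Agent.Q205.WV.Stm

/-!
Project WV (MP_28b024_mp), job NPFIN: from the normalized form to all intervals.
-/

set_option autoImplicit false

namespace Pool.Agent.Q211.WV.NPFIN

open MeasureTheory Filter Pool.Agent.W792.LL Pool.Agent.W792.WA
open scoped Topology

theorem acik_scale {d : ℕ} (K : C(UnitAddTorus (Fin d), ℝ)) (α : ℝ) (v : (Fin d → ℤ) → ℝ)
    (a b : ℝ) (h : ACIK K 1 (fun y => α * v y) a b) : ACIK K (α * 1) v a b := by
  have hS : ∀ z x w, Sol (hopK K) 1 (fun y => α * v y) z x w ↔ Sol (hopK K) (α * 1) v z x w := by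
    intro z x w
    have e : ∀ y, 1 * (α * v y) = α * 1 * v y := fun y => by ring
    unfold Sol
    simp only [e]
  intro x
  obtain ⟨μ, f, h1, h2, h3, h4, h5⟩ := h x
  refine ⟨μ, f, h1, fun z hz => ?_, h3, h4, h5⟩
  obtain ⟨⟨w, hw⟩, h6⟩ := h2 z hz
  exact ⟨⟨w, (hS z x w).1 hw⟩, fun w' hw' => h6 w' ((hS z x w').2 hw')⟩

theorem main : S_NPN → S_VRS → S_AFF → S_SCA → S_NPFIN := by
  intro hNPN hVRS hAFF hSCA d K a b p κ ε hd hab hp1 hp2 hκ hε
  have hd' : (0 : ℝ) < 4 * d := by positivity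
  have hba : 0 < b - a := by linarith
  set α : ℝ := 4 * d / (b - a) with hα
  have hα0 : 0 < α := by positivity
  have hαM : α * (b - a) = 4 * d := by
    rw [hα]
    field_simp
  have hmin : 0 < min (α ^ 2) (1 / α ^ 2) := lt_min (by positivity) (by positivity)
  obtain ⟨g1, ⟨B, hB⟩, hint, hmain⟩ := hNPN d (α • (K - ContinuousMap.const _ a)) p
    (min (α ^ 2) (1 / α ^ 2) * κ) (α ^ p * ε) hd hp1 hp2 (by positivity) (by positivity)
  refine ⟨α⁻¹ • g1, ⟨α⁻¹ * B, fun t => ?_⟩, ?_, ?_⟩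
  · rw [ContinuousMap.smul_apply, smul_eq_mul, abs_mul, abs_of_pos (by positivity : 0 < α⁻¹)]
    exact mul_le_mul_of_nonneg_left (hB t) (by positivity)
  · have h1 : ∀ k : UnitAddTorus (Fin d), |(α⁻¹ • g1) (lap d k)| ^ p =
        α⁻¹ ^ p * |g1 (lap d k)| ^ p := by
      intro k
      rw [ContinuousMap.smul_apply, smul_eq_mul, abs_mul, abs_of_pos (by positivity : 0 < α⁻¹),
        Real.mul_rpow (by positivity) (abs_nonneg _)]
    simp only [h1]
    rw [integral_const_mul]
    calc α⁻¹ ^ p * ∫ k : UnitAddTorus (Fin d), |g1 (lap d k)| ^ p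
        ≤ α⁻¹ ^ p * (α ^ p * ε) := mul_le_mul_of_nonneg_left hint (by positivity)
      _ = (α⁻¹ * α) ^ p * ε := by
          rw [Real.mul_rpow (by positivity) hα0.le]
          ring
      _ = ε := by rw [inv_mul_cancel₀ hα0.ne', Real.one_rpow, one_mul]
  · intro ν _ hν
    have hprob : IsProbabilityMeasure (ν.map fun x => α * x) :=
      Measure.isProbabilityMeasure_map (by fun_prop)
    have hvr : min (α ^ 2) (1 / α ^ 2) * κ ≤ vr (ν.map fun x => α * x) :=
      (mul_le_mul_of_nonneg_left hν hmin.le).trans (hVRS ν α hα0)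
    have h2 := hSCA ν α d (fun v => ACIK (α • (K - ContinuousMap.const _ a) + gK g1 d) 1 v 0
      (4 * d)) (hmain (ν.map fun x => α * x) hvr)
    have hkey : (α • (K - ContinuousMap.const _ a) + gK g1 d : C(UnitAddTorus (Fin d), ℝ)) =
        α • ((K + gK (α⁻¹ • g1) d) - ContinuousMap.const _ a) := by
      ext k
      simp only [ContinuousMap.add_apply, ContinuousMap.smul_apply, ContinuousMap.sub_apply,
        ContinuousMap.const_apply, smul_eq_mul, gK, ContinuousMap.comp_apply]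
      field_simp
      ring
    filter_upwards [h2] with v hv
    have hv2 := acik_scale _ α v 0 (4 * d) hv
    rw [hkey] at hv2
    have h3 := hAFF d (K + gK (α⁻¹ • g1) d) α a 1 0 (4 * d) v hα0 hv2
    have h4 : a + 0 / α = a := by simp
    have h5 : a + 4 * d / α = b := by
      rw [← hαM]
      field_simp
      ring
    rw [h4, h5] at h3
    exact h3

end Pool.Agent.Q211.WV.NPFIN
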